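import Pool.Agent.H654R2.MED.Sys

/-!
# Soundness: from a strategy to the weak closure property
-/

namespace Pool.Agent.H654R2.MED

variable {R J Q : Type} [DecidableEq R] [DecidableEq J]

/-- region of a vertex -/
def rgS : Vx R J Q → Option (Option R)
  | .sg r => some (some r)
  | .x r _ _ => some (some r)
  | .s0 => some none
  | .h _ => some none
  | .u => some none
  | _ => none

omit [DecidableEq R] [DecidableEq J] in
theorem dom_of {V : Type} {G : SimpleGraph V} {k : ℕ} {F : Set (Finset V)}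
    (h : IsStrategy G k F) {C : Finset V} (hC : C ∈ F) (v : V) :
    ∃ y ∈ C, y = v ∨ G.Adj y v := by
  obtain ⟨C', hC', hv, hT⟩ := h.2.2 C hC v
  rcases hT with rfl | ⟨f, hf⟩
  · exact ⟨v, hv, Or.inl rfl⟩
  · refine ⟨(f.symm ⟨v, hv⟩ : V), (f.symm ⟨v, hv⟩).2, ?_⟩
    have h1 := hf (f.symm ⟨v, hv⟩)
    rw [Equiv.apply_symm_apply] at h1
    rcases h1 with h1 | h1
    · exact Or.inl h1.symm
    · exact Or.inr h1

theorem adj_iff (S : Sys R J Q) (a b : Vx R J Q) :
    S.graph.Adj a b ↔ (S.e a b = true ∨ S.e b a = true) := by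
  show (S.e a b || S.e b a) = true ↔ _
  rw [Bool.or_eq_true]

variable [Fintype R]

/-- regions are hit exactly once -/
theorem rg_inj (S : Sys R J Q) {k : ℕ} (hk : k ≤ Fintype.card R + 2)
    {F : Set (Finset (Vx R J Q))} (h : IsStrategy S.graph k F) {C : Finset (Vx R J Q)}
    (hC : C ∈ F) {p : Bool} {j : J} (hT : Vx.T p j ∈ C) :
    ∀ y ∈ C, ∀ y' ∈ C, rgS y = rgS y' → y = y' := by
  classical
  have himg : C.image rgS = Finset.univ := by
    ext i
    simp only [Finset.mem_image, Finset.mem_univ, iff_true]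
    rcases i with _ | _ | r
    · exact ⟨_, hT, rfl⟩
    · obtain ⟨y, hy, h1⟩ := dom_of h hC Vx.s0
      refine ⟨y, hy, ?_⟩
      rcases h1 with rfl | h1
      · rfl
      · rw [adj_iff] at h1
        cases y <;> simp [Sys.e, rgS] at h1 ⊢
    · obtain ⟨y, hy, h1⟩ := dom_of h hC (Vx.sg r)
      refine ⟨y, hy, ?_⟩
      rcases h1 with rfl | h1
      · rfl
      · rw [adj_iff] at h1
        cases y <;> simp [Sys.e, rgS] at h1 ⊢
        exact h1.symm
  have hcard : (C.image rgS).card = C.card := by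
    apply le_antisymm Finset.card_image_le
    rw [himg, Finset.card_univ, h.2.1 C hC]
    simpa using hk
  have hinj := Finset.card_image_iff.1 hcard
  intro y hy y' hy' he
  exact hinj (Finset.mem_coe.2 hy) (Finset.mem_coe.2 hy') he

theorem struct_of (S : Sys R J Q) {k : ℕ} (hk : k ≤ Fintype.card R + 2)
    {F : Set (Finset (Vx R J Q))} (h : IsStrategy S.graph k F) {C : Finset (Vx R J Q)}
    (hC : C ∈ F) {p : Bool} {j : J} (hT : Vx.T p j ∈ C) :
    Vx.h p ∈ C ∧ ∃ V : R → Bool, ∀ r, Vx.x r p (V r) ∈ C := by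
  have hinj := rg_inj S hk h hC hT
  have hno : ∀ y ∈ C, rgS y = none → y = Vx.T p j := fun y hy h0 => hinj y hy _ hT h0
  have hh : Vx.h p ∈ C := by
    obtain ⟨y, hy, h1⟩ := dom_of h hC (Vx.m p)
    have h2 := hno y hy
    rcases h1 with rfl | h1
    · exact absurd (h2 rfl) (by simp)
    · rw [adj_iff] at h1
      cases y <;> simp [Sys.e, rgS] at h1 h2
      · rw [h1]; exact hy
      · exact absurd h2.1.symm h1
  refine ⟨hh, ?_⟩
  have hx : ∀ r, ∃ v, Vx.x r p v ∈ C := by
    intro r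
    obtain ⟨y, hy, h1⟩ := dom_of h hC (Vx.ab r p)
    have h2 := hno y hy
    have h3 := hinj y hy _ hh
    rcases h1 with rfl | h1
    · exact absurd (h2 rfl) (by simp)
    · rw [adj_iff] at h1
      cases y <;> simp [Sys.e, rgS] at h1 h2 h3
      · rename_i r' p' v'
        exact ⟨v', by rw [h1.1, h1.2]; exact hy⟩
      · exact absurd h3.symm h1
  choose V hV using hx
  exact ⟨V, hV⟩

theorem ok_of (S : Sys R J Q) {k : ℕ} (hk : k ≤ Fintype.card R + 2)
    {F : Set (Finset (Vx R J Q))} (h : IsStrategy S.graph k F) {C : Finset (Vx R J Q)}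
    (hC : C ∈ F) {p : Bool} {j : J} (hT : Vx.T p j ∈ C) {V : R → Bool}
    (hV : ∀ r, Vx.x r p (V r) ∈ C) : S.Ok j V := by
  have hinj := rg_inj S hk h hC hT
  have hh := (struct_of S hk h hC hT).1
  intro c hc
  obtain ⟨y, hy, h1⟩ := dom_of h hC (Vx.K c p)
  have h2 : rgS y = none → y = Vx.T p j := fun h0 => hinj y hy _ hT h0
  have h3 := hinj y hy _ hh
  have h4 : ∀ r, rgS y = some (some r) → y = Vx.x r p (V r) := fun r h0 => hinj y hy _ (hV r) h0
  rcases h1 with rfl | h1
  · exact absurd (h2 rfl) (by simp)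
  · rw [adj_iff] at h1
    cases y <;> simp [Sys.e, rgS] at h1 h2 h3 h4
    · rename_i r' p' v'
      exact ⟨r', by rw [← h4.2]; exact h1.2⟩
    · exact absurd h3.symm h1
    · rename_i p' j'
      rw [h2.2] at h1
      rcases hc with hc | hc
      · rw [hc] at h1
        simp at h1
      · exact absurd hc h1.2.2

/-- who arrives at a changed register -/
theorem arrive (S : Sys R J Q) {k : ℕ} (hk : k ≤ Fintype.card R + 2)
    {F : Set (Finset (Vx R J Q))} (h : IsStrategy S.graph k F) {C C' : Finset (Vx R J Q)}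
    (hC : C ∈ F) {p q : Bool} {j : J} (hT : Vx.T p j ∈ C) {V V' : R → Bool}
    (hV : ∀ r, Vx.x r p (V r) ∈ C) (hV' : ∀ r, Vx.x r q (V' r) ∈ C')
    (f : {v // v ∈ C} ≃ {v // v ∈ C'}) (hf : ∀ u, (f u : Vx R J Q) = u ∨ S.graph.Adj u (f u))
    (r : R) (hne : p = q → V' r ≠ V r)
    (hna : (bif S.isA r then xor (xor p q) (xor (V r) (V' r)) else xor p q) = false) :
    (f.symm ⟨_, hV' r⟩ : Vx R J Q) = Vx.T p j := by
  have hinj := rg_inj S hk h hC hT
  have hh := (struct_of S hk h hC hT).1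
  have h1 := hf (f.symm ⟨_, hV' r⟩)
  rw [Equiv.apply_symm_apply] at h1
  generalize f.symm ⟨_, hV' r⟩ = w at h1 ⊢
  obtain ⟨y, hy⟩ := w
  simp only at h1 ⊢
  have h2 : rgS y = none → y = Vx.T p j := fun h0 => hinj y hy _ hT h0
  have h3 := hinj y hy _ hh
  have h4 : ∀ r, rgS y = some (some r) → y = Vx.x r p (V r) := fun r h0 => hinj y hy _ (hV r) h0
  cases y with
  | T p' j' => exact h2 rfl
  | om => exact h2 rfl
  | m p' => exact h2 rfl
  | ab r' p' => exact h2 rfl
  | K c p' => exact h2 rfl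
  | sg r' => exact absurd (h4 r' rfl) (by simp)
  | s0 => exact absurd (h3 rfl) (by simp)
  | u => exact absurd (h3 rfl) (by simp)
  | h p' =>
    exfalso
    rw [adj_iff] at h1
    simp [Sys.e] at h1
  | x r' p' v' =>
    exfalso
    have h5 := h4 r' rfl
    simp only [Vx.x.injEq, true_and] at h5
    obtain ⟨h5, h6⟩ := h5
    subst h5
    subst h6
    rcases h1 with h1 | h1
    · simp only [Vx.x.injEq] at h1
      obtain ⟨h7, h8, h9⟩ := h1
      subst h7
      exact hne h8.symm h9
    · rw [adj_iff] at h1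
      rcases h1 with h1 | h1
      · simp only [Sys.e, Bool.and_eq_true, decide_eq_true_eq] at h1
        obtain ⟨h7, h8⟩ := h1
        subst h7
        rw [hna] at h8
        exact absurd h8 (by simp)
      · simp only [Sys.e, Bool.and_eq_true, decide_eq_true_eq] at h1
        obtain ⟨h7, h8⟩ := h1
        subst h7
        rw [Bool.xor_comm q p', Bool.xor_comm (V' r) (V r), hna] at h8
        exact absurd h8 (by simp)

/-- task G2 -/
theorem Sys.sound [Nonempty J] (S : Sys R J Q) {k : ℕ} (hk : k ≤ Fintype.card R + 2)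
    {F : Set (Finset (Vx R J Q))} (h : IsStrategy S.graph k F) : S.Weak := by
  refine ⟨fun j V => ∃ p, ∃ C ∈ F, Vx.T p j ∈ C ∧ ∀ r, Vx.x r p (V r) ∈ C, ?_, ?_⟩
  · obtain ⟨C, hC⟩ := h.1
    obtain ⟨j0⟩ := ‹Nonempty J›
    obtain ⟨C', hC', hT, -⟩ := h.2.2 C hC (Vx.T false j0)
    obtain ⟨-, V, hV⟩ := struct_of S hk h hC' hT
    exact ⟨j0, V, false, C', hC', hT, hV⟩
  · rintro j V ⟨p, C, hC, hT, hV⟩
    refine ⟨ok_of S hk h hC hT hV, fun j' => ⟨?_, ?_⟩⟩
    · obtain ⟨C', hC', hT', hm⟩ := h.2.2 C hC (Vx.T (!p) j')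
      rcases hm with rfl | ⟨f, hf⟩
      · exfalso
        have h0 := rg_inj S hk h hC hT _ hT' _ hT rfl
        simp at h0
      · obtain ⟨-, V', hV'⟩ := struct_of S hk h hC' hT'
        refine ⟨V', ⟨!p, C', hC', hT', hV'⟩, ?_⟩
        intro r s hr hs hrd hsd
        have key : ∀ t, S.isA t = true → V' t ≠ V t →
            (f.symm ⟨_, hV' t⟩ : Vx R J Q) = Vx.T p j := by
          intro t ht hd
          refine arrive S hk h hC hT hV hV' f hf t (fun _ => hd) ?_
          rw [ht]
          revert hd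
          cases p <;> cases V t <;> cases V' t <;> simp
        have h1 := key r hr hrd
        have h2 := key s hs hsd
        have h3 : f.symm ⟨_, hV' r⟩ = f.symm ⟨_, hV' s⟩ := Subtype.ext (h1.trans h2.symm)
        have h4 := congrArg Subtype.val (f.symm.injective h3)
        simp only [Vx.x.injEq] at h4
        exact h4.1
    · obtain ⟨C', hC', hT', hm⟩ := h.2.2 C hC (Vx.T p j')
      rcases hm with rfl | ⟨f, hf⟩
      · have h0 := rg_inj S hk h hC hT _ hT' _ hT rfl
        simp only [Vx.T.injEq, true_and] at h0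
        subst h0
        exact ⟨V, ⟨p, C', hC, hT, hV⟩, fun r s _ _ hr _ => absurd rfl hr⟩
      · obtain ⟨-, V', hV'⟩ := struct_of S hk h hC' hT'
        refine ⟨V', ⟨p, C', hC', hT', hV'⟩, ?_⟩
        intro r s hr hs hrd hsd
        have key : ∀ t, S.isA t = false → V' t ≠ V t →
            (f.symm ⟨_, hV' t⟩ : Vx R J Q) = Vx.T p j := by
          intro t ht hd
          refine arrive S hk h hC hT hV hV' f hf t (fun _ => hd) ?_
          rw [ht]
          simp
        have h1 := key r hr hrd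
        have h2 := key s hs hsd
        have h3 : f.symm ⟨_, hV' r⟩ = f.symm ⟨_, hV' s⟩ := Subtype.ext (h1.trans h2.symm)
        have h4 := congrArg Subtype.val (f.symm.injective h3)
        simp only [Vx.x.injEq] at h4
        exact h4.1

end Pool.Agent.H654R2.MED
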